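import Pool.Agent.Y45.TG.Stm

/-!
# (TG1) the words
-/

set_option autoImplicit false

namespace Pool.Agent.Y366.TG

open Pool.Agent.Y45.MON Pool.Agent.Y45.TG

theorem vv_map {r : ℕ} (w : WP r) {G H : Type} [Group G] [Group H] (φ : G →* H) (j : Fin r)
    (a b : G) : φ (vv w j a b) = vv w j (φ a) (φ b) := by
  simp [vv, Wj, X1, P0]

theorem vv_comm {r : ℕ} (w : WP r) {G : Type} [Group G] (j : Fin r) (a b : G)
    (h : a * b = b * a) : vv w j a b = a ^ w.δ j * a⁻¹ := by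
  have hc : Commute a b := h
  have h1 : Commute a (P0 w.M1 a b) := by
    unfold P0
    exact (((Commute.refl a).mul_right hc).mul_right ((Commute.refl a).pow_right _)).mul_right
      hc.inv_right
  have h2 : X1 w.M1 w.m2 a b = 1 := by
    unfold X1
    have h3 : Commute a (P0 w.M1 a b ^ w.m2) := h1.pow_right _
    rw [h3.eq]; group
  unfold vv Wj
  rw [h2]
  simp only [one_pow, mul_one]
  have h4 : Commute b a⁻¹ := hc.symm.inv_right
  rw [mul_assoc, mul_assoc, ← mul_assoc b, h4.eq]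
  group

theorem vv_one {r : ℕ} (w : WP r) {G : Type} [Group G] (j : Fin r) (b : G) :
    vv w j 1 b = 1 := by
  rw [vv_comm w j 1 b (by simp)]; simp

theorem vv_d1 {r : ℕ} (w : WP r) {G : Type} [Group G] (j : Fin r) (hj : w.δ j = 1) (a b : G)
    (h : a * b = b * a) : vv w j a b = 1 := by
  rw [vv_comm w j a b h, hj]; simp

theorem vv_d2 {r : ℕ} (w : WP r) {G : Type} [Group G] (j : Fin r) (hj : w.δ j = 2) (a b : G)
    (h : a * b = b * a) : vv w j a b = a := by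
  rw [vv_comm w j a b h, hj]; group

/-- the word `E(E(h, c_y), c_yy)` -/
def DD {r : ℕ} (w : WP r) (o j : Fin r) {G : Type} [Group G] (h c y : G) : G :=
  vv w j (vv w j h (vv w o c y)) (vv w o (vv w o c y) y)

theorem DD_comm {r : ℕ} (w : WP r) (o j : Fin r) (ho : w.δ o = 1) (hj : w.δ j = 2) {G : Type}
    [Group G] (h c y : G) (hc : c * y = y * c) : DD w o j h c y = h := by
  unfold DD
  rw [vv_d1 w o ho c y hc, vv_one, vv_d2 w j hj h 1 (by simp), vv_d2 w j hj h 1 (by simp)]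

theorem DD_one {r : ℕ} (w : WP r) (o j : Fin r) {G : Type} [Group G] (c y : G) :
    DD w o j 1 c y = 1 := by
  unfold DD
  rw [vv_one, vv_one]

theorem DD_map {r : ℕ} (w : WP r) (o j : Fin r) {G H : Type} [Group G] [Group H] (φ : G →* H)
    (h c y : G) : φ (DD w o j h c y) = DD w o j (φ h) (φ c) (φ y) := by
  simp [DD, vv_map]

section XG

variable {r : ℕ} {w : WP r} {p : ℕ} {ε : Fin r → ℕ} {X : Type} [Group X]
  {φ : X →* Multiplicative (ZMod p)} {rk : X → ℕ}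

theorem phi_vv (w : WP r) (φ : X →* Multiplicative (ZMod p)) (j : Fin r) (a b : X) :
    φ (vv w j a b) = φ a ^ w.δ j * (φ a)⁻¹ := by
  rw [vv_map, vv_comm w j _ _ (mul_comm _ _)]

theorem phi_d1 (w : WP r) (φ : X →* Multiplicative (ZMod p)) (j : Fin r) (hj : w.δ j = 1)
    (a b : X) : φ (vv w j a b) = 1 := by
  rw [phi_vv, hj, pow_one, mul_inv_cancel]

theorem phi_one (w : WP r) (φ : X →* Multiplicative (ZMod p)) (j : Fin r) (a b : X)
    (ha : φ a = 1) : φ (vv w j a b) = 1 := by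
  rw [phi_vv, ha, one_pow, inv_one, mul_one]

theorem pow_one' (hM : XG w p ε X φ rk) (j : Fin r) (a b : X) (h1 : φ (vv w j a b) = 1)
    (h2 : a * b ≠ b * a) : vv w j a b ^ ε j = 1 := by
  rw [← hM.ord j a b h1 h2]
  exact pow_orderOf_eq_one _

theorem ne_one' (hM : XG w p ε X φ rk) (j : Fin r) (hj : ε j ≠ 1) (a b : X)
    (h1 : φ (vv w j a b) = 1) (h2 : a * b ≠ b * a) : vv w j a b ≠ 1 := by
  intro h
  have := hM.ord j a b h1 h2
  rw [h, orderOf_one] at this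
  exact hj this.symm

/-- the two commutator-like elements -/
theorem two_rk (hM : XG w p ε X φ rk) (o : Fin r) (ho : w.δ o = 1) (hε : ε o ≠ 1) (c y : X)
    (hc : c * y ≠ y * c) : vv w o c y ≠ 1 ∧ vv w o (vv w o c y) y ≠ 1 ∧
      rk (vv w o c y) < rk (vv w o (vv w o c y) y) := by
  have hy1 : y ≠ 1 := by rintro rfl; exact hc (by simp)
  have hcy1 := ne_one' hM o hε c y (phi_d1 w φ o ho c y) hc
  have hrk1 : rk y < rk (vv w o c y) := (hM.rk1 o c y hc).2
  have hcyy : vv w o c y * y ≠ y * vv w o c y := by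
    intro h1
    have := hM.rkc _ y hcy1 hy1 h1
    omega
  exact ⟨hcy1, ne_one' hM o hε _ y (phi_d1 w φ o ho _ y) hcyy, (hM.rk1 o _ y hcyy).1⟩

theorem DD_ncomm (hM : XG w p ε X φ rk) (o j : Fin r) (ho : w.δ o = 1) (hε : ε o ≠ 1)
    (hj : w.δ j = 2) (h c y : X) (hh : φ h = 1) (hc : c * y ≠ y * c) :
    DD w o j h c y ^ ε j = 1 := by
  obtain ⟨hcy1, hcyy1, hrk2⟩ := two_rk hM o ho hε c y hc
  set cy := vv w o c y with hcy
  set cyy := vv w o cy y with hcyy'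
  have hD : DD w o j h c y = vv w j (vv w j h cy) cyy := rfl
  rw [hD]
  by_cases h1 : h = 1
  · subst h1
    rw [vv_one, vv_one, one_pow]
  · by_cases h2 : h * cy = cy * h
    · rw [vv_d2 w j hj h cy h2]
      apply pow_one' hM j _ _ (phi_one w φ j _ _ hh)
      intro h3
      have h4 := hM.rkc h cy h1 hcy1 h2
      have h5 := hM.rkc h cyy h1 hcyy1 h3
      omega
    · have h3 := pow_one' hM j h cy (phi_one w φ j _ _ hh) h2
      by_cases h4 : vv w j h cy * cyy = cyy * vv w j h cy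
      · rw [vv_d2 w j hj _ _ h4, h3]
      · exact pow_one' hM j _ _ (phi_one w φ j _ _ (phi_one w φ j _ _ hh)) h4

end XG

/-- TG1 -/
theorem wd : WDStmt := by
  intro hX
  obtain ⟨w, n0, hδ, hn0, hw⟩ := hX 3 ![1, 2, 2] (by
    intro j; fin_cases j <;> simp)
  obtain ⟨p, hp0, hp⟩ := Nat.exists_infinite_primes n0
  obtain ⟨q, hq0, hq⟩ := Nat.exists_infinite_primes (p + 1)
  have hpq : p ≠ q := by omega
  obtain ⟨X, iX, φ, rk, hM⟩ := hw (p * q) p hp (Dvd.intro _ rfl) (by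
    intro l hl hlN
    rcases (hl.dvd_mul).1 hlN with h | h
    · rw [(Nat.prime_dvd_prime_iff_eq hl hp).1 h]; exact hp0
    · rw [(Nat.prime_dvd_prime_iff_eq hl hq).1 h]; omega) ![p, p, q] (by
      intro j
      fin_cases j
      · exact ⟨⟨q, rfl⟩, hp.one_lt.ne'⟩
      · exact ⟨⟨q, rfl⟩, hp.one_lt.ne'⟩
      · exact ⟨⟨p, mul_comm _ _⟩, hq.one_lt.ne'⟩)
  have hcop : Nat.Coprime p q := (Nat.coprime_primes hp hq).2 hpq
  have hbez : (p : ℤ) * Nat.gcdA p q + (q : ℤ) * Nat.gcdB p q = 1 := by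
    have := Nat.gcd_eq_gcd_ab p q
    rw [hcop] at this
    exact_mod_cast this.symm
  have d0 : w.δ 0 = 1 := by rw [hδ]; rfl
  have d1 : w.δ 1 = 2 := by rw [hδ]; rfl
  have d2 : w.δ 2 = 2 := by rw [hδ]; rfl
  let x0 : FreeGroup (Fin 2) := FreeGroup.of 0
  let x1 : FreeGroup (Fin 2) := FreeGroup.of 1
  let h0 : FreeGroup (Fin 3) := FreeGroup.of 0
  let c0 : FreeGroup (Fin 3) := FreeGroup.of 1
  let y0 : FreeGroup (Fin 3) := FreeGroup.of 2
  let pw : FreeGroup (Fin 3) := DD w 0 1 h0 c0 y0 ^ ((p : ℤ) * Nat.gcdA p q) *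
    DD w 0 2 h0 c0 y0 ^ ((q : ℤ) * Nat.gcdB p q)
  have hpw : ∀ (G : Type) [Group G] (a c y : G), FreeGroup.lift ![a, c, y] pw =
      DD w 0 1 a c y ^ ((p : ℤ) * Nat.gcdA p q) * DD w 0 2 a c y ^ ((q : ℤ) * Nat.gcdB p q) := by
    intro G _ a c y
    simp only [pw, map_mul, map_zpow, DD_map, h0, c0, y0, FreeGroup.lift_apply_of]
    rfl
  have hc : ∀ (G : Type) [Group G] (a b : G), FreeGroup.lift ![a, b] (vv w 0 x0 x1) =
      vv w 0 a b := by
    intro G _ a b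
    rw [vv_map]; simp [x0, x1]
  have hd : ∀ (G : Type) [Group G] (a b : G),
      FreeGroup.lift ![a, b] (vv w 0 (vv w 0 x0 x1) x1) = vv w 0 (vv w 0 a b) b := by
    intro G _ a b
    rw [vv_map, hc]; simp [x1]
  have ho : (![p, p, q] : Fin 3 → ℕ) 0 ≠ 1 := hp.one_lt.ne'
  refine ⟨p, pw, vv w 0 x0 x1, vv w 0 (vv w 0 x0 x1) x1, X, iX, φ, hp, ⟨?_, ?_⟩, ?_, ?_,
    ⟨hM.nab, hM.sur, hM.cen, ?_, ?_⟩⟩
  · intro G _ a c d hcd
    rw [hpw, DD_comm w 0 1 d0 d1 a c d hcd, DD_comm w 0 2 d0 d2 a c d hcd, ← zpow_add, hbez,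
      zpow_one]
  · intro G _ c d
    rw [hpw, DD_one, DD_one, one_zpow, one_zpow, mul_one]
  · intro G _ x y hxy
    rw [hc, vv_d1 w 0 d0 x y hxy]
  · intro G _ x y hxy
    rw [hd, vv_d1 w 0 d0 x y hxy, vv_one]
  · intro a c d ha hcd
    have h1 := DD_ncomm hM 0 1 d0 ho d1 a c d ha hcd
    have h2 := DD_ncomm hM 0 2 d0 ho d2 a c d ha hcd
    have h1' : DD w 0 1 a c d ^ p = 1 := h1
    have h2' : DD w 0 2 a c d ^ q = 1 := h2
    rw [hpw, zpow_mul, zpow_mul, zpow_natCast, zpow_natCast, h1', h2']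
    simp
  · intro x y hxy
    rw [hc, hd]
    obtain ⟨e1, e2, e3⟩ := two_rk hM 0 d0 ho x y hxy
    intro h
    have := hM.rkc _ _ e1 e2 h
    omega

end Pool.Agent.Y366.TG
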